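import Pool.Agent.Helper23.CP.Top

/-!
# Project TOP: the range book

`top_rg`: `Top R0 R1` from a certificate `c : Ct2` of form S, one decidable check `okB` of its
integers and the statement of the cells. `n0 / D < R0`, `R1 < n1 / D`,
`|rn / rd - √2 / 2| ≤ dn / dd`.
-/

set_option autoImplicit false
set_option linter.all false

namespace Pool.Agent.Helper64.TOP

open Pool.Agent.Helper23.CP Pool.Agent.Helper31.SR.FinT Helper80.CW.DL

/-- residual of the ball at a vertex -/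
theorem slack1 {K rd k l t : ℝ} (hK : 0 < K) (hr : 0 < rd) (ht : t < K)
    (h : t ^ 2 * rd ≤ 2 * (k + l * t) * (K - t)) :
    (t / K) ^ 2 / (1 - t / K) / 32 ≤ k / (16 * K * rd) + l / (16 * rd) * (t / K) := by
  have hKt : (0 : ℝ) < K - t := by linarith
  have f : (t / K) ^ 2 / (1 - t / K) / 32 = t ^ 2 / (K * (K - t) * 32) := by
    have : K - t ≠ 0 := hKt.ne'
    field_simp
  have f' : k / (16 * K * rd) + l / (16 * rd) * (t / K) = (k + l * t) / (16 * K * rd) := by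
    field_simp
  rw [f, f', div_le_div_iff₀ (by positivity) (by positivity)]
  nlinarith [mul_le_mul_of_nonneg_left h (mul_pos (by norm_num : (0 : ℝ) < 16) hK).le]

/-- residual of the contacts at a vertex -/
theorem slack2 {K rd k l t dn dd : ℝ} (hK : 0 < K) (hr : 0 < rd) (hd : 0 < dd)
    (h : 16 * rd * ((71100 * K + 133000 * t) * t ^ 2 * dd + 3000000 * dn * K ^ 3) ≤
      1000000 * (k + l * t) * K ^ 2 * dd) :
    (711 / 10000 + 133 / 1000 * (t / K)) * (t / K) ^ 2 + 3 * (dn / dd) ≤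
      k / (16 * K * rd) + l / (16 * rd) * (t / K) := by
  have f : (711 / 10000 + 133 / 1000 * (t / K)) * (t / K) ^ 2 + 3 * (dn / dd) =
      ((71100 * K + 133000 * t) * t ^ 2 * dd + 3000000 * dn * K ^ 3) / (1000000 * K ^ 3 * dd) := by
    field_simp
    ring
  have f' : k / (16 * K * rd) + l / (16 * rd) * (t / K) = (k + l * t) / (16 * K * rd) := by
    field_simp
  rw [f, f', div_le_div_iff₀ (by positivity) (by positivity)]
  nlinarith [mul_le_mul_of_nonneg_left h hK.le]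

/-- the cap -/
theorem cap_ok {K rd k3 n1 D : ℝ} (hK : 0 < K) (hr : 0 < rd) (hD : 0 < D)
    (h : 16 * K * rd * n1 ^ 2 ≤ k3 * D ^ 2) : (n1 / D) ^ 2 ≤ k3 / (16 * K * rd) := by
  rw [div_pow, div_le_div_iff₀ (by positivity) (by positivity)]
  linarith

/-- the integer check of a range -/
def okB (c : Ct2) (n0 n1 D dn dd : ℤ) : Bool :=
  c.ok && (decide (0 < c.K) && decide (0 < c.rd) && decide (0 < c.N) && decide (0 < D) &&
  decide (0 < n0) && decide (0 < dd) && decide (0 ≤ c.t1) && decide (c.t1 < c.t2) &&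
  decide (D ^ 2 ≤ 3 * n0 ^ 2) && decide (10000 * n1 ≤ 6124 * D) &&
  decide (100 * c.t2 ≤ 18 * c.K) &&
  decide ((3 * D ^ 2 - 8 * n0 ^ 2) * c.K ≤ c.t2 * (4 * n0 ^ 2 - D ^ 2)) &&
  decide (c.t1 * D ^ 2 ≤ c.K * (6 * D ^ 2 - 16 * n1 ^ 2)) &&
  decide (0 ≤ c.rn * dd - dn * c.rd) && decide (0 ≤ c.rn * dd + dn * c.rd) &&
  decide (2 * (c.rn * dd - dn * c.rd) ^ 2 ≤ (c.rd * dd) ^ 2) &&
  decide ((c.rd * dd) ^ 2 ≤ 2 * (c.rn * dd + dn * c.rd) ^ 2) &&
  decide (c.t1 ^ 2 * c.rd ≤ 2 * (c.k1 + c.l1 * c.t1) * (c.K - c.t1)) &&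
  decide (c.t2 ^ 2 * c.rd ≤ 2 * (c.k1 + c.l1 * c.t2) * (c.K - c.t2)) &&
  decide (16 * c.rd * ((71100 * c.K + 133000 * c.t1) * c.t1 ^ 2 * dd + 3000000 * dn * c.K ^ 3) ≤
    1000000 * (c.k2 + c.l2 * c.t1) * c.K ^ 2 * dd) &&
  decide (16 * c.rd * ((71100 * c.K + 133000 * c.t2) * c.t2 ^ 2 * dd + 3000000 * dn * c.K ^ 3) ≤
    1000000 * (c.k2 + c.l2 * c.t2) * c.K ^ 2 * dd) &&
  decide (16 * c.K * c.rd * n1 ^ 2 ≤ c.k3 * D ^ 2) &&
  decide (100000 * c.M ≤ 6604 * c.N))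

theorem rgA {c : Ct2} {n0 n1 D dn dd : ℤ} (h : okB c n0 n1 D dn dd = true) {R0 R1 : ℝ}
    (h1 : (n0 : ℝ) / D < R0) (h2 : R1 < (n1 : ℝ) / D) :
    RgA R0 (n0 / D) R1 (n1 / D) c.T1r c.T2r c.rr (dn / dd) c.e1r c.f1r c.e2r c.f2r c.c3r := by
  unfold okB at h
  rw [Bool.and_eq_true] at h
  obtain ⟨_, h⟩ := h
  simp only [Bool.and_eq_true, decide_eq_true_eq] at h
  obtain ⟨⟨⟨⟨⟨⟨⟨⟨⟨⟨⟨⟨⟨⟨⟨⟨⟨⟨⟨⟨⟨⟨hK, hrd⟩, hN⟩, hD⟩, hn0⟩, hdd⟩, a0⟩, a00⟩, a1⟩, a2⟩, a4⟩, a5⟩,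
    a6⟩, a7⟩, a8⟩, a9⟩, a10⟩, a11⟩, a12⟩, a13⟩, a14⟩, a15⟩, a16⟩ := h
  have hK' : (0 : ℝ) < c.K := by exact_mod_cast hK
  have hrd' : (0 : ℝ) < c.rd := by exact_mod_cast hrd
  have hD' : (0 : ℝ) < D := by exact_mod_cast hD
  have hn0' : (0 : ℝ) < n0 := by exact_mod_cast hn0
  have hdd' : (0 : ℝ) < dd := by exact_mod_cast hdd
  have b0 : (0 : ℝ) ≤ c.t1 := by exact_mod_cast a0
  have b00 : (c.t1 : ℝ) < c.t2 := by exact_mod_cast a00
  have b1 : (D : ℝ) ^ 2 ≤ 3 * n0 ^ 2 := by exact_mod_cast a1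
  have b2 : (10000 : ℝ) * n1 ≤ 6124 * D := by exact_mod_cast a2
  have b4 : (100 : ℝ) * c.t2 ≤ 18 * c.K := by exact_mod_cast a4
  have b5 : (3 * (D : ℝ) ^ 2 - 8 * n0 ^ 2) * c.K ≤ c.t2 * (4 * n0 ^ 2 - D ^ 2) := by
    exact_mod_cast a5
  have b6 : (c.t1 : ℝ) * D ^ 2 ≤ c.K * (6 * D ^ 2 - 16 * n1 ^ 2) := by exact_mod_cast a6
  have b7 : (0 : ℝ) ≤ c.rn * dd - dn * c.rd := by exact_mod_cast a7
  have b8 : (0 : ℝ) ≤ c.rn * dd + dn * c.rd := by exact_mod_cast a8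
  have b9 : 2 * ((c.rn : ℝ) * dd - dn * c.rd) ^ 2 ≤ (c.rd * dd) ^ 2 := by exact_mod_cast a9
  have b10 : ((c.rd : ℝ) * dd) ^ 2 ≤ 2 * (c.rn * dd + dn * c.rd) ^ 2 := by exact_mod_cast a10
  have b11 : (c.t1 : ℝ) ^ 2 * c.rd ≤ 2 * (c.k1 + c.l1 * c.t1) * (c.K - c.t1) := by
    exact_mod_cast a11
  have b12 : (c.t2 : ℝ) ^ 2 * c.rd ≤ 2 * (c.k1 + c.l1 * c.t2) * (c.K - c.t2) := by
    exact_mod_cast a12
  have b13 : 16 * (c.rd : ℝ) * ((71100 * c.K + 133000 * c.t1) * c.t1 ^ 2 * dd +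
    3000000 * dn * c.K ^ 3) ≤ 1000000 * (c.k2 + c.l2 * c.t1) * c.K ^ 2 * dd := by
    exact_mod_cast a13
  have b14 : 16 * (c.rd : ℝ) * ((71100 * c.K + 133000 * c.t2) * c.t2 ^ 2 * dd +
    3000000 * dn * c.K ^ 3) ≤ 1000000 * (c.k2 + c.l2 * c.t2) * c.K ^ 2 * dd := by
    exact_mod_cast a14
  have b15 : 16 * (c.K : ℝ) * c.rd * n1 ^ 2 ≤ c.k3 * D ^ 2 := by exact_mod_cast a15
  have ht2 : (c.t2 : ℝ) < c.K := by linarith
  have ht1 : (c.t1 : ℝ) < c.K := by linarith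
  have e1 : (c.rn : ℝ) / c.rd - dn / dd = (c.rn * dd - dn * c.rd) / (c.rd * dd) := by field_simp
  have e2 : (c.rn : ℝ) / c.rd + dn / dd = (c.rn * dd + dn * c.rd) / (c.rd * dd) := by field_simp
  unfold Ct2.T1r Ct2.T2r Ct2.rr Ct2.e1r Ct2.e2r Ct2.f1r Ct2.f2r Ct2.c3r
  constructor
  · positivity
  · rw [div_pow, div_le_div_iff₀ (by norm_num) (by positivity)]
    linarith
  · exact h1
  · exact h2
  · rw [div_le_div_iff₀ hD' (by norm_num)]
    linarith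
  · exact div_nonneg (b0.trans b00.le) hK'.le
  · rw [div_le_div_iff₀ hK' (by norm_num)]
    linarith
  · have f1 : 3 - 8 * ((n0 : ℝ) / D) ^ 2 = (3 * (D : ℝ) ^ 2 - 8 * n0 ^ 2) * c.K / (c.K * D ^ 2) := by
      field_simp
    have f2 : (c.t2 : ℝ) / c.K * (4 * (n0 / D) ^ 2 - 1) =
        c.t2 * (4 * n0 ^ 2 - D ^ 2) / (c.K * D ^ 2) := by
      field_simp
    rw [f1, f2]
    exact div_le_div_of_nonneg_right b5 (by positivity)
  · exact div_nonneg b0 hK'.le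
  · have f1 : (c.t1 : ℝ) / c.K = c.t1 * D ^ 2 / (c.K * D ^ 2) := by field_simp
    have f2 : 6 - 16 * ((n1 : ℝ) / D) ^ 2 = c.K * (6 * D ^ 2 - 16 * n1 ^ 2) / (c.K * D ^ 2) := by
      field_simp
    rw [f1, f2]
    exact div_le_div_of_nonneg_right b6 (by positivity)
  · refine r_near ?_ ?_ ?_ ?_
    · rw [e1]
      exact div_nonneg b7 (by positivity)
    · rw [e1, div_pow, div_le_div_iff₀ (by positivity) (by norm_num)]
      linarith
    · rw [e2, div_pow, div_le_div_iff₀ (by norm_num) (by positivity)]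
      linarith
    · rw [e2]
      exact div_nonneg b8 (by positivity)
  · exact slack1 hK' hrd' ht1 b11
  · exact slack1 hK' hrd' ht2 b12
  · exact slack2 hK' hrd' hdd' b13
  · exact slack2 hK' hrd' hdd' b14
  · exact cap_ok hK' hrd' hD' b15

/-- **the range theorem of a certificate** -/
theorem top_rg {c : Ct2} {n0 n1 D dn dd : ℤ} (h : okB c n0 n1 D dn dd = true) {R0 R1 : ℝ}
    (h1 : (n0 : ℝ) / D < R0) (h2 : R1 < (n1 : ℝ) / D)
    (H : ∀ u p : Helper80.CW.DL.V3, u.1 ^ 2 + u.2.1 ^ 2 + u.2.2 ^ 2 = 1 → 0 ≤ u.2.2 → u.2.2 ≤ u.2.1 →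
      u.2.1 ≤ u.1 → c.AffS u p) : Top R0 R1 := by
  have hR := rgA h h1 h2
  unfold okB at h
  rw [Bool.and_eq_true] at h
  obtain ⟨hok, h⟩ := h
  simp only [Bool.and_eq_true, decide_eq_true_eq] at h
  obtain ⟨⟨⟨⟨⟨⟨⟨⟨⟨⟨⟨⟨⟨⟨⟨⟨⟨⟨⟨⟨⟨⟨hK, hrd⟩, hN⟩, hD⟩, hn0⟩, hdd⟩, a0⟩, a00⟩, a1⟩, a2⟩, a4⟩, a5⟩,
    a6⟩, a7⟩, a8⟩, a9⟩, a10⟩, a11⟩, a12⟩, a13⟩, a14⟩, a15⟩, a16⟩ := h
  refine top_of_affS hok hR ?_ H
  have hN' : (0 : ℝ) < c.N := by exact_mod_cast hN
  have hM' : (100000 : ℝ) * c.M ≤ 6604 * c.N := by exact_mod_cast a16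
  rw [div_le_iff₀ (by positivity)]
  norm_num
  linarith

/-! ### The rows of the book (empty seed lists) -/

/-- a row of the book with a list of seeds and a target -/
def row (S : List Sd) (N M t1 t2 k1 k2 l1 l2 k3 : ℤ) : Ct2 :=
  ⟨S, N, M, 32768, t1, t2, 985, 1393, k1, k2, l1, l2, k3⟩

/-- [0.6042, 0.6078] -/
example : okB (row [] 1000000000 66040000 2925 5664 (-466999) (-1191984) 228 573
    269800388) 6041999 6078001 10000000 18222 100000000000 = true := by decide +kernel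

/-- [0.6078, 0.6094] -/
example : okB (row [] 1000000000 66040000 1903 3062 (-144547) (-361027) 119 292
    271222726) 6077999 6094001 10000000 18222 100000000000 = true := by decide +kernel

/-- [0.6094, 0.6104] -/
example : okB (row [] 1000000000 66040000 1264 1962 (-58155) (-141752) 74 178
    272113587) 6093999 6104001 10000000 18222 100000000000 = true := by decide +kernel

/-- [0.6104, 0.6109] -/
example : okB (row [] 1000000000 66040000 944 1290 (-27679) (-65417) 50 118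
    272559565) 6103999 6109001 10000000 18222 100000000000 = true := by decide +kernel

/-- [0.6109, 0.61135] -/
example : okB (row [] 1000000000 66040000 655 959 (-14274) (-33097) 36 84
    272961257) 6108999 6113501 10000000 18222 100000000000 = true := by decide +kernel

/-- [0.61135, 0.6118] -/
example : okB (row [] 1000000000 66040000 367 663 (-5049) (-12014) 22 52
    273363246) 6113499 6118001 10000000 18222 100000000000 = true := by decide +kernel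

/-- [0.6118, 0.612] -/
example : okB (row [] 1000000000 66040000 239 370 (-1866) (-3940) 13 30
    273542002) 6117999 6120001 10000000 18222 100000000000 = true := by decide +kernel

/-- [0.6042, 0.6057] -/
example : okB (row [] 1000000000 66040000 4261 5664 (-710551) (-1826352) 271 685
    267939243) 6041999 6057001 10000000 18222 100000000000 = true := by decide +kernel

/-- [0.6057, 0.6078] -/
example : okB (row [] 1000000000 66040000 2925 4558 (-361921) (-920758) 192 480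
    269800388) 6056999 6078001 10000000 18222 100000000000 = true := by decide +kernel

end Pool.Agent.Helper64.TOP
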